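import Pool.Agent.TH210.MP.Fin
import Pool.Agent.TH466.QG.Low

/-!
Twisted covers: logarithmic derivatives of linear forms (helper210).
-/

set_option autoImplicit false

open FF Module Pool.Agent.W602.GT Pool.Agent.W602.Cov Pool.Agent.W602.Cov.G
open Pool.Agent.TH756.PR

namespace Pool.Agent.TH210.TC

section dl

variable {k K : Type} [Field k] [Field K] [Algebra k K] (δ : Derivation k K K)

/-- the logarithmic derivative -/
noncomputable def dl (f : K) : K := δ f / f

theorem dl_mul {f g : K} (hf : f ≠ 0) (hg : g ≠ 0) : dl δ (f * g) = dl δ f + dl δ g := by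
  unfold dl
  rw [δ.leibniz, smul_eq_mul, smul_eq_mul]
  field_simp
  ring

theorem dl_one : dl δ (1 : K) = 0 := by
  unfold dl
  simp

theorem dl_prod {ι : Type} (s : Finset ι) (f : ι → K) (hf : ∀ i ∈ s, f i ≠ 0) :
    dl δ (∏ i ∈ s, f i) = ∑ i ∈ s, dl δ (f i) := by
  classical
  induction s using Finset.induction_on with
  | empty => simp [dl_one]
  | insert a s ha ih =>
    rw [Finset.prod_insert ha, Finset.sum_insert ha, dl_mul δ (hf a (Finset.mem_insert_self a s))
      (Finset.prod_ne_zero_iff.2 fun i hi => hf i (Finset.mem_insert_of_mem hi)),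
      ih fun i hi => hf i (Finset.mem_insert_of_mem hi)]

theorem dl_zpow {f : K} (hf : f ≠ 0) (n : ℤ) : dl δ (f ^ n) = n * dl δ f := by
  unfold dl
  rw [δ.leibniz_zpow, smul_eq_mul, zsmul_eq_mul, zpow_sub_one₀ hf]
  have h1 : f ^ n ≠ 0 := zpow_ne_zero _ hf
  field_simp

theorem dl_pow {f : K} (hf : f ≠ 0) (n : ℕ) : dl δ (f ^ n) = n * dl δ f := by
  have h := dl_zpow δ hf (n : ℤ)
  rw [zpow_natCast] at h
  rw [h]
  simp

theorem dl_div {f g : K} (hf : f ≠ 0) (hg : g ≠ 0) : dl δ (f / g) = dl δ f - dl δ g := by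
  rw [div_eq_mul_inv, dl_mul δ hf (inv_ne_zero hg), ← zpow_neg_one, dl_zpow δ hg]
  push_cast
  ring

theorem dl_eq_zero {f : K} (h : δ f = 0) : dl δ f = 0 := by
  unfold dl
  rw [h, zero_div]

theorem eq_zero_of_dl {f : K} (hf : f ≠ 0) (h : dl δ f = 0) : δ f = 0 := by
  unfold dl at h
  rcases div_eq_zero_iff.1 h with h | h
  · exact h
  · exact absurd h hf

end dl

section lin

variable {n : ℕ} {K : Type} [Field K] [Algebra ℂ K]

theorem lf_add (φ ψ : Form n) (x : Fin (n + 1) → K) : lf (φ + ψ) x = lf φ x + lf ψ x := by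
  unfold lf
  rw [← Finset.sum_add_distrib]
  refine Finset.sum_congr rfl fun j _ => ?_
  rw [LinearMap.add_apply, map_add, add_mul]

theorem lf_smul (c : ℂ) (φ : Form n) (x : Fin (n + 1) → K) :
    lf (c • φ) x = algebraMap ℂ K c * lf φ x := by
  unfold lf
  rw [Finset.mul_sum]
  refine Finset.sum_congr rfl fun j _ => ?_
  rw [LinearMap.smul_apply, smul_eq_mul, map_mul, mul_assoc]

theorem lf_zero (x : Fin (n + 1) → K) : lf (0 : Form n) x = 0 := by
  unfold lf
  simp

theorem lf_proj (j : Fin (n + 1)) (x : Fin (n + 1) → K) :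
    lf (LinearMap.proj j : Form n) x = x j := by
  unfold lf
  rw [Finset.sum_eq_single j]
  · simp
  · intro l _ hl
    simp [hl.symm]
  · intro h
    exact absurd (Finset.mem_univ j) h

/-- the image of the point under an endomorphism of the space -/
noncomputable def img (p : (Fin (n + 1) → ℂ) →ₗ[ℂ] (Fin (n + 1) → ℂ)) (x : Fin (n + 1) → K) :
    Fin (n + 1) → K := fun j => lf ((LinearMap.proj j : Form n) ∘ₗ p) x

theorem lf_img (p : (Fin (n + 1) → ℂ) →ₗ[ℂ] (Fin (n + 1) → ℂ)) (φ : Form n)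
    (x : Fin (n + 1) → K) : lf φ (img p x) = lf (φ ∘ₗ p) x := by
  have h1 : φ ∘ₗ p = ∑ j, φ (Pi.single j 1) • ((LinearMap.proj j : Form n) ∘ₗ p) := by
    ext l
    simp only [LinearMap.comp_apply, LinearMap.coe_single, LinearMap.sum_apply,
      LinearMap.smul_apply, LinearMap.proj_apply, smul_eq_mul]
    conv_lhs => rw [← Finset.univ_sum_single (p (Pi.single l 1)), map_sum]
    refine Finset.sum_congr rfl fun j _ => ?_
    have h2 : (Pi.single j (p (Pi.single l 1) j) : Fin (n + 1) → ℂ) =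
        p (Pi.single l 1) j • Pi.single j 1 := by
      rw [← Pi.single_smul, smul_eq_mul, mul_one]
    rw [h2, map_smul, smul_eq_mul, mul_comm]
  have h3 : ∀ s : Finset (Fin (n + 1)), lf (∑ j ∈ s, φ (Pi.single j 1) •
      ((LinearMap.proj j : Form n) ∘ₗ p)) x = ∑ j ∈ s, algebraMap ℂ K (φ (Pi.single j 1)) *
        lf ((LinearMap.proj j : Form n) ∘ₗ p) x := by
    classical
    intro s
    induction s using Finset.induction_on with
    | empty => simp [lf_zero]
    | insert a s ha ih => rw [Finset.sum_insert ha, Finset.sum_insert ha, lf_add, lf_smul, ih]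
  rw [h1, h3]
  rfl

/-- the derivatives of the linear forms -/
theorem der_lf {F : Type} [Field F] [Algebra ℂ F] [Algebra F K] [IsScalarTower ℂ F K]
    (δ : Derivation F K K) {x x' : Fin (n + 1) → K} (hx0 : x 0 ≠ 0) {M : K}
    (h : ∀ j : Fin n, δ (x j.succ / x 0) =
      M * ((x' j.succ * x 0 - x j.succ * x' 0) / x 0 ^ 2)) (φ : Form n) :
    δ (lf φ x / x 0) = M * ((lf φ x' * x 0 - lf φ x * x' 0) / x 0 ^ 2) := by
  have h1 : ∀ j : Fin (n + 1), δ (x j / x 0) =
      M * ((x' j * x 0 - x j * x' 0) / x 0 ^ 2) := by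
    refine Fin.cases ?_ h
    rw [div_self hx0, mul_comm (x' 0), sub_self, zero_div, mul_zero]
    simp
  have h2 : lf φ x / x 0 = ∑ j, algebraMap ℂ K (φ (Pi.single j 1)) * (x j / x 0) := by
    unfold lf
    rw [Finset.sum_div]
    exact Finset.sum_congr rfl fun j _ => by rw [mul_div_assoc]
  rw [h2, map_sum]
  have h3 : ∀ c : ℂ, δ (algebraMap ℂ K c) = 0 := fun c => by
    rw [IsScalarTower.algebraMap_apply ℂ F K, δ.map_algebraMap]
  have h4 : ∀ j : Fin (n + 1), δ (algebraMap ℂ K (φ (Pi.single j 1)) * (x j / x 0)) =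
      algebraMap ℂ K (φ (Pi.single j 1)) * (M * ((x' j * x 0 - x j * x' 0) / x 0 ^ 2)) := by
    intro j
    rw [δ.leibniz, h3, h1]
    simp
  rw [Finset.sum_congr rfl fun j _ => h4 j]
  unfold lf
  rw [Finset.sum_mul, Finset.sum_mul, ← Finset.sum_sub_distrib, Finset.sum_div, Finset.mul_sum]
  refine Finset.sum_congr rfl fun j _ => ?_
  ring

theorem dl_lf {F : Type} [Field F] [Algebra ℂ F] [Algebra F K] [IsScalarTower ℂ F K]
    (δ : Derivation F K K) {x x' : Fin (n + 1) → K} (hx0 : x 0 ≠ 0) {M : K}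
    (h : ∀ j : Fin n, δ (x j.succ / x 0) =
      M * ((x' j.succ * x 0 - x j.succ * x' 0) / x 0 ^ 2)) (φ : Form n) (hφ : lf φ x ≠ 0) :
    dl δ (lf φ x / x 0) = M * (lf φ x' / lf φ x - x' 0 / x 0) := by
  unfold dl
  rw [der_lf δ hx0 h φ]
  field_simp

end lin

end Pool.Agent.TH210.TC
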