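import Pool.Agent.TH210.TC.Rul

/-!
Twisted covers over a reducible arrangement are uniruled (helper210).
-/

set_option autoImplicit false
set_option linter.overlappingInstances false

open FF Module Pool.Agent.W602.GT Pool.Agent.W602.Cov Pool.Agent.W602.Cov.G
open Pool.Agent.TH756.PR IntermediateField
open Pool.Agent.W619.PQ (IsUniruled)

namespace Pool.Agent.TH210.TC

section red

variable {n q : ℕ} {ℓ : Fin q → Form n}

/-- the projection given by a reducible arrangement -/
theorem proj_of_red (h : Reducible ℓ) :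
    ∃ (p : (Fin (n + 1) → ℂ) →ₗ[ℂ] (Fin (n + 1) → ℂ)) (ε : Fin q → ℤ) (ψ1 ψ2 : Form n),
      p ∘ₗ p = p ∧ (∀ k, ℓ k ∘ₗ p = (ε k : ℂ) • ℓ k) ∧ ψ1 ∘ₗ p = 0 ∧ ψ2 ∘ₗ p = ψ2 ∧
      ψ1 ≠ 0 ∧ ψ2 ≠ 0 := by
  classical
  obtain ⟨V₁, V₂, hV₁, hV₂, hc, hk⟩ := h
  obtain ⟨v1, hv1, hv10⟩ := Submodule.exists_mem_ne_zero_of_ne_bot hV₁
  obtain ⟨v2, hv2, hv20⟩ := Submodule.exists_mem_ne_zero_of_ne_bot hV₂
  obtain ⟨p, hp⟩ : ∃ p : (Fin (n + 1) → ℂ) →ₗ[ℂ] (Fin (n + 1) → ℂ),
    p = Submodule.projection V₂ V₁ hc.symm := ⟨_, rfl⟩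
  have hp1 : ∀ v ∈ V₁, p v = 0 := by
    intro v hv
    rw [hp]
    exact (Submodule.projection_apply_eq_zero_iff hc.symm).2 hv
  have hp2 : ∀ v ∈ V₂, p v = v := by
    intro v hv
    rw [hp]
    exact Submodule.projection_apply_of_mem_left hc.symm hv
  have hpm : ∀ v, p v ∈ V₂ := by
    intro v
    rw [hp]
    exact Submodule.projection_apply_mem hc.symm v
  have hpp : ∀ v, p (p v) = p v := fun v => hp2 _ (hpm v)
  have hpc : p ∘ₗ p = p := LinearMap.ext hpp
  have hp3 : ∀ v, v - p v ∈ V₁ := by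
    intro v
    have h1 : p (v - p v) = 0 := by rw [map_sub, hpp, sub_self]
    rw [hp] at h1
    have h2 := (Submodule.projection_apply_eq_zero_iff hc.symm).1 h1
    rw [← hp] at h2
    exact h2
  have hform : ∀ φ : Form n, (∀ v ∈ V₁, φ v = 0) → φ ∘ₗ p = φ := by
    intro φ hφ
    refine LinearMap.ext fun v => ?_
    rw [LinearMap.comp_apply]
    have h1 := hφ _ (hp3 v)
    rw [map_sub, sub_eq_zero] at h1
    exact h1.symm
  have hform0 : ∀ φ : Form n, (∀ v ∈ V₂, φ v = 0) → φ ∘ₗ p = 0 := by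
    intro φ hφ
    refine LinearMap.ext fun v => ?_
    rw [LinearMap.comp_apply, hφ _ (hpm v)]
    rfl
  have hε : ∀ k, ∃ ε : ℤ, ℓ k ∘ₗ p = (ε : ℂ) • ℓ k := by
    intro k
    rcases hk k with h | h
    · exact ⟨1, by rw [hform _ h]; simp⟩
    · exact ⟨0, by rw [hform0 _ h]; simp⟩
  choose ε hε using hε
  obtain ⟨j1, hj1⟩ : ∃ j, v1 j ≠ 0 := by
    by_contra hcon
    push Not at hcon
    exact hv10 (funext hcon)
  obtain ⟨j2, hj2⟩ : ∃ j, v2 j ≠ 0 := by
    by_contra hcon
    push Not at hcon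
    exact hv20 (funext hcon)
  refine ⟨p, ε, (LinearMap.proj j1 : Form n) - (LinearMap.proj j1 : Form n) ∘ₗ p,
    (LinearMap.proj j2 : Form n) ∘ₗ p, hpc, hε, ?_, ?_, ?_, ?_⟩
  · rw [LinearMap.sub_comp, LinearMap.comp_assoc, hpc, sub_self]
  · rw [LinearMap.comp_assoc, hpc]
  · intro h0
    have h1 := LinearMap.congr_fun h0 v1
    rw [LinearMap.sub_apply, LinearMap.comp_apply, hp1 v1 hv1, map_zero, sub_zero] at h1
    exact hj1 h1
  · intro h0
    have h1 := LinearMap.congr_fun h0 v2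
    rw [LinearMap.comp_apply, hp2 v2 hv2] at h1
    exact hj2 h1

end red

variable {r R : ℕ} {n q : Fin r → ℕ} {F K : Type} [Field F] [Field K] [Algebra ℂ F]
  [Algebra ℂ K] [Algebra F K] [IsScalarTower ℂ F K]
  {ℓ : ∀ i, Fin (q i) → Form (n i)} {x : ∀ i, Fin (n i + 1) → K}

theorem lf_map {K' : Type} [Field K'] [Algebra ℂ K'] [Algebra K K'] [IsScalarTower ℂ K K']
    {n : ℕ} (φ : Form n) (x : Fin (n + 1) → K) :
    lf φ (fun j => algebraMap K K' (x j)) = algebraMap K K' (lf φ x) := by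
  unfold lf
  rw [map_sum]
  refine Finset.sum_congr rfl fun j _ => ?_
  rw [map_mul, IsScalarTower.algebraMap_apply ℂ K K']

theorem trdeg_alg {K K' : Type} [Field K] [Field K'] [Algebra K K'] [Algebra.IsAlgebraic K K'] :
    Algebra.trdeg K K' = 0 := trdeg_eq_zero

theorem uniruled_tw [Algebra.EssFiniteType ℂ F] {N : ℕ} (hN : Algebra.trdeg ℂ K = N)
    (hx0 : ∀ i, x i 0 ≠ 0) (hbas : IsTranscendenceBasis F (aff x))
    (hl : ∀ (i : Fin r) (φ : Form (n i)), φ ≠ 0 → lf φ (x i) ≠ 0)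
    (hℓ : ∀ i k, ℓ i k ≠ 0) {g : Fin R → F} (hg : ∀ j, g j ≠ 0)
    {m : Fin R → ℕ} (hm : ∀ j, 0 < m j) {e : Fin R → ∀ i, Fin (q i) → ℤ}
    (he : ∀ j i, ∑ k, e j i k = 0) {y : Fin R → K} (hy : Eqs ℓ x g m e y)
    (hgen : IntermediateField.adjoin F (Set.range (aff x) ∪ Set.range y) = ⊤) (i0 : Fin r)
    (hred : Reducible (ℓ i0)) : IsUniruled ℂ K N := by
  classical
  obtain ⟨p0, ε0, ψ1, ψ2, hpp, hε0, h1, h2, h10, h20⟩ := proj_of_red hred
  -- the extension
  obtain ⟨M, hMdef⟩ : ∃ M : ℕ, M = ∏ j, m j := ⟨_, rfl⟩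
  have hM : 0 < M := by
    rw [hMdef]
    exact Finset.prod_pos fun j _ => hm j
  have hmM : ∀ j, m j ∣ M := fun j => by
    rw [hMdef]
    exact Finset.dvd_prod_of_mem m (Finset.mem_univ j)
  obtain ⟨t, ht⟩ := IsAlgClosed.exists_pow_nat_eq
    (algebraMap K (AlgebraicClosure K) (lf ψ2 (x i0) / lf ψ1 (x i0))) hM
  have htint : IsIntegral K t := (AlgebraicClosure.isAlgebraic K).isAlgebraic t |>.isIntegral
  have hfd : FiniteDimensional K K⟮t⟯ := IntermediateField.adjoin.finiteDimensional htint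
  have halg : Algebra.IsAlgebraic K K⟮t⟯ := inferInstance
  have hst : IsScalarTower ℂ F K⟮t⟯ := IsScalarTower.of_algebraMap_eq fun c => by
    rw [IsScalarTower.algebraMap_apply ℂ K K⟮t⟯, IsScalarTower.algebraMap_apply ℂ F K,
      ← IsScalarTower.algebraMap_apply F K K⟮t⟯]
  obtain ⟨τ, hτdef⟩ : ∃ τ : K⟮t⟯, τ = IntermediateField.AdjoinSimple.gen K t := ⟨_, rfl⟩
  have hτ : τ ^ M = algebraMap K K⟮t⟯ (lf ψ2 (x i0) / lf ψ1 (x i0)) := by
    apply Subtype.ext
    rw [hτdef]
    push_cast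
    rw [IntermediateField.AdjoinSimple.coe_gen, ht]
    exact map_div₀ _ _ _
  have hadj : ∀ z : K⟮t⟯, z ∈ Algebra.adjoin K {τ} := by
    intro z
    have h3 := (IntermediateField.adjoin.powerBasis htint).adjoin_gen_eq_top
    rw [IntermediateField.adjoin.powerBasis_gen, ← hτdef] at h3
    rw [h3]
    trivial
  obtain ⟨x', hx'⟩ : ∃ x' : ∀ i, Fin (n i + 1) → K⟮t⟯,
    x' = fun i j => algebraMap K K⟮t⟯ (x i j) := ⟨_, rfl⟩
  have haff : aff x' = algebraMap K K⟮t⟯ ∘ aff x := by
    funext b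
    rw [hx']
    unfold aff
    rw [Function.comp_apply, map_div₀]
  have hlx' : ∀ (i : Fin r) (φ : Form (n i)), lf φ (x' i) = algebraMap K K⟮t⟯ (lf φ (x i)) := by
    intro i φ
    rw [hx']
    exact lf_map φ (x i)
  have hinj := (algebraMap K K⟮t⟯).injective
  have hx0' : ∀ i, x' i 0 ≠ 0 := by
    intro i h0
    have h3 : algebraMap K K⟮t⟯ (x i 0) = 0 := by
      rw [hx'] at h0
      exact h0
    exact hx0 i (hinj (by rw [h3, map_zero]))
  have hbas' : IsTranscendenceBasis F (aff x') := by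
    rw [haff]
    exact hbas.algebraMap_comp
  have hgen' : IntermediateField.adjoin F (Set.range (aff x') ∪
      Set.range (fun j => algebraMap K K⟮t⟯ (y j)) ∪ {τ}) = ⊤ := by
    rw [eq_top_iff]
    intro z _
    have hK : ∀ a : K, algebraMap K K⟮t⟯ a ∈ IntermediateField.adjoin F (Set.range (aff x') ∪
        Set.range (fun j => algebraMap K K⟮t⟯ (y j)) ∪ {τ}) := by
      intro a
      have ha : a ∈ IntermediateField.adjoin F (Set.range (aff x) ∪ Set.range y) := by
        rw [hgen]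
        exact IntermediateField.mem_top
      induction ha using IntermediateField.adjoin_induction with
      | mem a ha =>
        rcases ha with ⟨b, rfl⟩ | ⟨j, rfl⟩
        · refine IntermediateField.subset_adjoin F _ (Or.inl (Or.inl ⟨b, ?_⟩))
          rw [haff]
          rfl
        · exact IntermediateField.subset_adjoin F _ (Or.inl (Or.inr ⟨j, rfl⟩))
      | algebraMap f =>
        rw [← IsScalarTower.algebraMap_apply F K K⟮t⟯]
        exact IntermediateField.algebraMap_mem _ f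
      | add a b _ _ ha hb =>
        rw [map_add]
        exact add_mem ha hb
      | inv a _ ha =>
        rw [map_inv₀]
        exact inv_mem ha
      | mul a b _ _ ha hb =>
        rw [map_mul]
        exact mul_mem ha hb
    have hz := hadj z
    induction hz using Algebra.adjoin_induction with
    | mem z hz =>
      rw [Set.mem_singleton_iff.1 hz]
      exact IntermediateField.subset_adjoin F _ (Or.inr rfl)
    | algebraMap a => exact hK a
    | add a b _ _ ha hb => exact add_mem (ha trivial) (hb trivial)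
    | mul a b _ _ ha hb => exact mul_mem (ha trivial) (hb trivial)
  have hR : Ruled ℂ K⟮t⟯ := by
    refine ruled_aux (p := Function.update (fun i => 0) i0 p0)
      (ε := Function.update (fun i _ => 0) i0 ε0) hx0' hbas' (fun i φ hφ => ?_) hℓ hg hm he
      (y := fun j => algebraMap K K⟮t⟯ (y j)) (fun j => ?_) (fun i k => ?_) i0 (fun i hi => ?_)
      ?_ (ψ1 := ψ1) (ψ2 := ψ2) ?_ ?_ h10 h20 hM hmM (τ := τ) ?_ hgen'
    · rw [hlx']
      intro h0
      exact hl i φ hφ (hinj (by rw [h0, map_zero]))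
    · have h3 := congrArg (algebraMap K K⟮t⟯) (hy j)
      rw [map_pow, map_mul, map_prod] at h3
      rw [h3, ← IsScalarTower.algebraMap_apply F K K⟮t⟯]
      congr 1
      refine Finset.prod_congr rfl fun i _ => ?_
      rw [map_prod]
      refine Finset.prod_congr rfl fun k _ => ?_
      rw [map_zpow₀, hlx']
    · by_cases hi : i = i0
      · subst hi
        rw [Function.update_self, Function.update_self]
        exact hε0 k
      · rw [Function.update_of_ne hi, Function.update_of_ne hi, LinearMap.comp_zero]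
        simp
    · rw [Function.update_of_ne hi]
    · rw [Function.update_self]
      exact hpp
    · rw [Function.update_self]
      exact h1
    · rw [Function.update_self]
      exact h2
    · rw [hτ, map_div₀, hlx', hlx']
  -- finite generation
  have hess : Algebra.EssFiniteType F K⟮t⟯ := by
    rw [← IntermediateField.fg_top_iff]
    have hfin : (Set.range (aff x') ∪ Set.range (fun j => algebraMap K K⟮t⟯ (y j)) ∪
        {τ}).Finite :=
      ((Set.finite_range _).union (Set.finite_range _)).union (Set.finite_singleton _)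
    refine ⟨hfin.toFinset, ?_⟩
    rw [Set.Finite.coe_toFinset]
    exact hgen'
  have hess' : Algebra.EssFiniteType ℂ K⟮t⟯ := Algebra.EssFiniteType.comp ℂ F K⟮t⟯
  have htr : Algebra.trdeg ℂ K⟮t⟯ = N := by
    rw [← trdeg_add_eq ℂ K (A := K⟮t⟯), hN, Pool.Agent.TH210.TC.trdeg_alg, add_zero]
  exact Pool.Agent.TH466.QG.uniruled_below htr hR

end Pool.Agent.TH210.TC
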