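import Pool.Agent.TH210.TC.Ext
import Pool.Agent.TH210.MP.Non

/-!
Twisted covers: nonvanishing, and the Kodaira dimension (helper210).
-/

set_option autoImplicit false
set_option linter.overlappingInstances false

open FF Module Pool.Agent.W602.GT Pool.Agent.W602.Cov Pool.Agent.W602.Cov.G
open Pool.Agent.W603.LV Pool.Agent.W168.CG.PGR Pool.Agent.TH152.AC Pool.Agent.TH756.AR
open Pool.Agent.TH756.PR Pool.Agent.TH210.MP
open Pool.Agent.W619.PQ (IsUniruled)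

namespace Pool.Agent.TH210.TC

section kod

variable {K : Type} [Field K] [Algebra ℂ K]

theorem reg_iff_rge (P : Place ℂ K) (f : K) : P.Reg f ↔ RGe P 0 f := by
  rw [reg_iff_ge]
  constructor
  · rintro (h | h)
    · exact Or.inl h
    · exact Or.inr (by exact_mod_cast h)
  · rintro (h | h)
    · exact Or.inl h
    · exact Or.inr (by exact_mod_cast h)

/-- the two definitions of the Kodaira dimension -/
theorem kod_iff (N h : ℕ) : KodGe ℂ K N (fun _ => False) h ↔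
    KodGeP K N Set.univ (fun _ => 0) h := by
  constructor
  · rintro ⟨M, hM, ω, hω, h1⟩
    refine ⟨M, hM, ω, fun j => ⟨(hω j).1, fun P _ hP D hD => ?_⟩, h1⟩
    rw [mul_zero, neg_zero]
    exact (reg_iff_rge P _).1 ((hω j).2.2 P hP id D hD)
  · rintro ⟨M, hM, ω, hω, h1⟩
    have h2 : ∀ j (P : Place ℂ K), Divisorial N P → RegAt P (ω j) := by
      intro j P hP D hD
      have h3 := (hω j).2 P (Set.mem_univ P) hP D hD
      rw [mul_zero, neg_zero] at h3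
      exact (reg_iff_rge P _).2 h3
    exact ⟨M, hM, ω, fun j => ⟨(hω j).1, fun P hP D hD => h2 j P hP D fun i =>
      Pool.Agent.TH466.QG.derReg_of_log (hD i), fun P hP _ => h2 j P hP⟩, h1⟩

end kod

variable {r R : ℕ} {n q : Fin r → ℕ} {F K : Type} [Field F] [Field K] [Algebra ℂ F]
  [Algebra ℂ K] [Algebra F K] [IsScalarTower ℂ F K]
  {ℓ : ∀ i, Fin (q i) → Form (n i)} {x : ∀ i, Fin (n i + 1) → K}

theorem span_of_nrm {P : Place ℂ K} {a : Fin r → ℤ} {v : ∀ i, Fin (q i) → ℕ}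
    (h : Nrm ℓ x P a v) (i : Fin r) : Submodule.span ℂ (ℓ i '' {k | v i k ≠ 0}) ≠ ⊤ := by
  intro htop
  obtain ⟨φ, hφ0, hφ⟩ := h.2.1 i
  have h3 := ge_span P (a i + 1) (ℓ i '' {k | v i k ≠ 0}) (x i) (by
    rintro _ ⟨k, hk, rfl⟩
    right
    rw [h.2.2 i k]
    have : v i k ≠ 0 := hk
    omega) φ (by rw [htop]; trivial)
  rcases h3 with h3 | h3
  · exact hφ0 h3
  · rw [hφ] at h3
    linarith

/-- the multiplicities at the places which are trivial on `F` are compatible with the equations -/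
theorem compat_tw (hlx : ∀ i k, lf (ℓ i k) (x i) ≠ 0) {g : Fin R → F} (hg : ∀ j, g j ≠ 0)
    {m : Fin R → ℕ} {e : Fin R → ∀ i, Fin (q i) → ℤ} (he : ∀ j i, ∑ k, e j i k = 0)
    {y : Fin R → K} (hy : Eqs ℓ x g m e y) (P : Place ℂ K) (hP : Dom F P) {a : Fin r → ℤ}
    {v : ∀ i, Fin (q i) → ℕ} (h : Nrm ℓ x P a v) :
    (∀ i, ∃ x : Fin (n i + 1) → ℂ, x ≠ 0 ∧ ∀ k, v i k ≠ 0 → ℓ i k x = 0) ∧
      ∀ j, (m j : ℤ) ∣ ∑ i, ∑ k, e j i k * v i k := by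
  refine ⟨fun i => ?_, fun j => ?_⟩
  · obtain ⟨xb, hxb0, hxb⟩ := Pool.Agent.W33.CG.FRE.exists_common (ℓ i) {k | v i k ≠ 0}
      (span_of_nrm h i)
    exact ⟨xb, hxb0, fun k hk => hxb k hk⟩
  · refine ⟨P.ord (y j), ?_⟩
    have hgK : algebraMap F K (g j) ≠ 0 := by simpa using hg j
    have hprod : ∏ i, ∏ k, lf (ℓ i k) (x i) ^ e j i k ≠ 0 :=
      Finset.prod_ne_zero_iff.2 fun i _ => Finset.prod_ne_zero_iff.2 fun k _ =>
        zpow_ne_zero _ (hlx i k)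
    have h2 := congrArg P.ord (hy j)
    rw [P.ord_pow, P.ord_mul hgK hprod, hP, zero_add, ord_prod' P Finset.univ _ fun i _ =>
      Finset.prod_ne_zero_iff.2 fun k _ => zpow_ne_zero _ (hlx i k)] at h2
    rw [h2]
    refine Finset.sum_congr rfl fun i _ => ?_
    rw [ord_prod' P Finset.univ _ fun k _ => zpow_ne_zero _ (hlx i k)]
    have h3 : ∀ k, P.ord (lf (ℓ i k) (x i) ^ e j i k) = e j i k * a i + e j i k * v i k := by
      intro k
      rw [P.ord_zpow, h.2.2 i k]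
      ring
    rw [Finset.sum_congr rfl fun k _ => h3 k, Finset.sum_add_distrib, ← Finset.sum_mul, he,
      zero_mul, zero_add]

/-- the multiplicities of the cover -/
def MultT (ℓ : ∀ i, Fin (q i) → Form (n i)) (m : Fin R → ℕ) (e : Fin R → ∀ i, Fin (q i) → ℤ)
    (S : (∀ i, Fin (q i) → ℕ) → Prop) : Prop :=
  ∀ v : ∀ i, Fin (q i) → ℕ, (∃ i, v i ≠ 0) →
    (∀ i, ∃ x : Fin (n i + 1) → ℂ, x ≠ 0 ∧ ∀ k, v i k ≠ 0 → ℓ i k x = 0) →
    (∀ j, (m j : ℤ) ∣ ∑ i, ∑ k, e j i k * v i k) → S v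

variable {N0 : ℕ}

/-- **Nonvanishing.** -/
theorem low0 [Algebra.EssFiniteType ℂ F] (hn : ∀ i, 1 ≤ n i) (hℓ : ∀ i k, ℓ i k ≠ 0)
    (hr : ∀ i, ¬ Reducible (ℓ i)) {d : Fin r → ℕ} (hd : ∀ i, Bnd (ℓ i) (d i))
    (hm : Algebra.trdeg ℂ F = N0) (hx0 : ∀ i, x i 0 ≠ 0) (hbas : IsTranscendenceBasis F (aff x))
    {g : Fin R → F} (hg : ∀ j, g j ≠ 0) {m : Fin R → ℕ} {e : Fin R → ∀ i, Fin (q i) → ℤ}
    (he : ∀ j i, ∑ k, e j i k = 0) {y : Fin R → K} (hy : Eqs ℓ x g m e y)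
    (hM : MultT ℓ m e fun v => ∃ k : ∀ i, Fin (q i), (1 : ℚ) ≤ ∑ i, (v i (k i) : ℚ) / d i)
    {h : ℕ} (hZ : KodGe ℂ F N0 (fun _ => False) h) :
    KodGe ℂ K (N0 + ∑ i, n i) (fun _ => False) h := by
  rw [kod_iff] at hZ ⊢
  have hlx := lx_ne hℓ hx0 hbas
  refine non_final hn hℓ hr (d := d) (fun i => ?_) hm hx0 hbas Set.univ _ (fun _ _ => le_rfl)
    (fun P _ _ hdom a v hv hv0 => ?_) (fun _ => 0)
    (ver_zero' hn hr Set.univ _ (fun _ _ => le_rfl) _) hZ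
  · rcases hd i with h' | ⟨h', h''⟩
    · exact Or.inl h'
    · exact Or.inr ⟨h', h''.resolve_left (hr i)⟩
  · obtain ⟨h5, h6⟩ := compat_tw (n := n) hlx hg he hy P hdom hv
    obtain ⟨k, hk⟩ := hM v hv0 h5 h6
    refine ⟨k, ?_⟩
    rw [sub_zero, mul_one]
    have h7 : ((1 : ℚ) : ℝ) ≤ ((∑ i, (v i (k i) : ℚ) / d i : ℚ) : ℝ) := by exact_mod_cast hk
    push_cast at h7
    exact h7

theorem frac_gap {r : ℕ} {q : Fin r → ℕ} {d : Fin r → ℕ} (hd : ∀ i, 0 < d i)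
    (v : ∀ i, Fin (q i) → ℕ) (k : ∀ i, Fin (q i)) (h : (1 : ℚ) < ∑ i, (v i (k i) : ℚ) / d i) :
    (1 : ℝ) + 1 / ((∏ i, d i : ℕ) : ℝ) ≤ ∑ i, (v i (k i) : ℝ) / d i := by
  have hD : 0 < ∏ i, d i := Finset.prod_pos fun i _ => hd i
  obtain ⟨D, hDdef⟩ : ∃ D : ℕ, D = ∏ i, d i := ⟨_, rfl⟩
  rw [← hDdef] at hD ⊢
  have hDQ : (0 : ℚ) < D := by exact_mod_cast hD
  obtain ⟨S, hS⟩ : ∃ S : ℕ, (S : ℚ) = D * ∑ i, (v i (k i) : ℚ) / d i := by
    refine ⟨∑ i, v i (k i) * (D / d i), ?_⟩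
    push_cast
    rw [Finset.mul_sum]
    refine Finset.sum_congr rfl fun i _ => ?_
    have hdvd : d i ∣ D := by
      rw [hDdef]
      exact Finset.dvd_prod_of_mem d (Finset.mem_univ i)
    have hdi : (d i : ℚ) ≠ 0 := by
      exact_mod_cast (hd i).ne'
    rw [Nat.cast_div hdvd hdi]
    ring
  have h1 : (D : ℚ) < S := by
    rw [hS]
    have h2 := mul_lt_mul_of_pos_left h hDQ
    linarith
  have h2 : D + 1 ≤ S := by
    have h3 : D < S := by exact_mod_cast h1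
    omega
  have h3 : ((D : ℚ) + 1) ≤ D * ∑ i, (v i (k i) : ℚ) / d i := by
    rw [← hS]
    exact_mod_cast h2
  have h4 : ((D : ℝ) + 1) ≤ D * ∑ i, (v i (k i) : ℝ) / d i := by
    have h7 : (((D : ℚ) + 1 : ℚ) : ℝ) ≤ ((D * ∑ i, (v i (k i) : ℚ) / d i : ℚ) : ℝ) := by
      exact_mod_cast h3
    push_cast at h7
    exact h7
  have hDR : (0 : ℝ) < D := by exact_mod_cast hD
  have h5 : (1 : ℝ) + 1 / D = (D + 1) / D := by
    field_simp
  rw [h5, div_le_iff₀ hDR]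
  linarith

/-- **The Kodaira dimension.** -/
theorem low1 [Algebra.EssFiniteType ℂ F] (hn : ∀ i, 1 ≤ n i) (hℓ : ∀ i k, ℓ i k ≠ 0)
    (hr : ∀ i, ¬ Reducible (ℓ i)) {d : Fin r → ℕ} (hd : ∀ i, Bnd (ℓ i) (d i))
    (hm : Algebra.trdeg ℂ F = N0) (hx0 : ∀ i, x i 0 ≠ 0) (hbas : IsTranscendenceBasis F (aff x))
    {g : Fin R → F} (hg : ∀ j, g j ≠ 0) {m : Fin R → ℕ} {e : Fin R → ∀ i, Fin (q i) → ℤ}
    (he : ∀ j i, ∑ k, e j i k = 0) {y : Fin R → K} (hy : Eqs ℓ x g m e y)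
    (hM : MultT ℓ m e fun v => ∃ k : ∀ i, Fin (q i), (1 : ℚ) < ∑ i, (v i (k i) : ℚ) / d i)
    {h : ℕ} (hZ : KodGe ℂ F N0 (fun _ => False) h) :
    KodGe ℂ K (N0 + ∑ i, n i) (fun _ => False) (h + ∑ i, n i) := by
  rw [kod_iff] at hZ ⊢
  have hlx := lx_ne hℓ hx0 hbas
  have hdpos : ∀ i, 0 < d i := fun i => by
    rcases hd i with h' | ⟨h', -⟩ <;> omega
  have hDpos : (0 : ℝ) < ((∏ i, d i : ℕ) : ℝ) := by
    exact_mod_cast Finset.prod_pos fun i _ => hdpos i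
  have hs : (1 : ℝ) < 1 + 1 / ((∏ i, d i : ℕ) : ℝ) := by
    have := one_div_pos.2 hDpos
    linarith
  refine final_kod hn hℓ hr (d := d) (fun i => ?_) hm hx0 hbas Set.univ _ (fun _ _ => le_rfl) hs
    (fun P _ _ hdom a v hv hv0 => ?_) (fun _ => 0)
    (ver_zero hn hr Set.univ _ (fun _ _ => le_rfl) hs _) hZ
  · rcases hd i with h' | ⟨h', h''⟩
    · exact Or.inl h'
    · exact Or.inr ⟨h', h''.resolve_left (hr i)⟩
  · obtain ⟨h5, h6⟩ := compat_tw (n := n) hlx hg he hy P hdom hv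
    obtain ⟨k, hk⟩ := hM v hv0 h5 h6
    refine ⟨k, ?_⟩
    rw [sub_zero, mul_one]
    exact frac_gap hdpos v k hk

theorem trdeg_tw (hm : Algebra.trdeg ℂ F = N0) (hbas : IsTranscendenceBasis F (aff x)) :
    Algebra.trdeg ℂ K = (N0 + ∑ i, n i : ℕ) := by
  have h1 : IsTranscendenceBasis F (fun b : Fin (∑ i, n i) =>
      aff x (finSigmaFinEquiv.symm b)) := hbas.comp_equiv finSigmaFinEquiv.symm
  rw [← trdeg_add_eq ℂ F (A := K), hm, trdeg_of_basis h1]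
  push_cast
  rfl

theorem ess_tw [Algebra.EssFiniteType ℂ F] {y : Fin R → K}
    (hgen : IntermediateField.adjoin F (Set.range (aff x) ∪ Set.range y) = ⊤) :
    Algebra.EssFiniteType ℂ K := by
  have hess : Algebra.EssFiniteType F K := by
    rw [← IntermediateField.fg_top_iff]
    have hfin : (Set.range (aff x) ∪ Set.range y).Finite :=
      (Set.finite_range _).union (Set.finite_range _)
    refine ⟨hfin.toFinset, ?_⟩
    rw [Set.Finite.coe_toFinset]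
    exact hgen
  exact Algebra.EssFiniteType.comp ℂ F K

theorem all_ne (hx0 : ∀ i, x i 0 ≠ 0) (hbas : IsTranscendenceBasis F (aff x)) (i : Fin r)
    (φ : Form (n i)) (hφ : φ ≠ 0) : lf φ (x i) ≠ 0 := by
  have h1 : AlgebraicIndependent ℂ (aff x) :=
    hbas.1.restrictScalars (algebraMap ℂ F).injective
  refine lf_ne (hx0 i) ?_ hφ
  exact h1.comp (fun j : Fin (n i) => (⟨i, j⟩ : (i : Fin r) × Fin (n i))) (fun j j' h => by
    simpa using h)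

/-- **Reducible arrangements.** -/
theorem up [Algebra.EssFiniteType ℂ F] (hm : Algebra.trdeg ℂ F = N0) (hx0 : ∀ i, x i 0 ≠ 0)
    (hbas : IsTranscendenceBasis F (aff x)) (hℓ : ∀ i k, ℓ i k ≠ 0) {g : Fin R → F}
    (hg : ∀ j, g j ≠ 0) {m : Fin R → ℕ} (hmp : ∀ j, 0 < m j)
    {e : Fin R → ∀ i, Fin (q i) → ℤ} (he : ∀ j i, ∑ k, e j i k = 0) {y : Fin R → K}
    (hy : Eqs ℓ x g m e y)
    (hgen : IntermediateField.adjoin F (Set.range (aff x) ∪ Set.range y) = ⊤) (i0 : Fin r)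
    (hred : Reducible (ℓ i0)) : IsUniruled ℂ K (N0 + ∑ i, n i) ∧
      ¬ Psef ℂ K (N0 + ∑ i, n i) (fun _ => False) := by
  have htr := trdeg_tw hm hbas
  have hess : Algebra.EssFiniteType ℂ K := ess_tw hgen
  have h1 := uniruled_tw htr hx0 hbas (all_ne hx0 hbas) hℓ hg hmp he hy hgen i0 hred
  refine ⟨h1, fun h2 => ?_⟩
  exact (Pool.Agent.W619.Y.uniruled_neg _ htr h1).1
    ((Pool.Agent.TH466.QG.psef_iff _).1 h2)

end Pool.Agent.TH210.TC
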