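import Pool.Agent.TH210.TC.Dl

/-!
Twisted covers over a reducible arrangement: a finite extension of the function field is ruled
(helper210).
-/

set_option autoImplicit false

open FF Module Pool.Agent.W602.GT Pool.Agent.W602.Cov Pool.Agent.W602.Cov.G
open Pool.Agent.TH756.PR IntermediateField

namespace Pool.Agent.TH210.TC

/-- a field which is generated by a weight vector over the constants is ruled -/
theorem ruled_of_der {K : Type} [Field K] [Algebra ℂ K] (δ : Derivation ℂ K K) {σ : K}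
    (hσ0 : σ ≠ 0) (hσ : δ σ = σ) (htop : (consts δ)⟮σ⟯ = ⊤) : Ruled ℂ K := by
  refine ⟨consts δ, σ, ?_, htop⟩
  intro halg
  have h1 : Algebra.IsAlgebraic (consts δ) K := by
    have h2 : Algebra.IsAlgebraic (consts δ) (consts δ)⟮σ⟯ :=
      IntermediateField.isAlgebraic_adjoin_simple halg.isIntegral
    constructor
    intro z
    have h3 := h2.isAlgebraic
      (⟨z, by rw [htop]; exact IntermediateField.mem_top⟩ : (consts δ)⟮σ⟯)
    exact h3.algebraMap (A := K)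
  have h2 : Algebra.IsAlgebraic (IntermediateField.adjoin ℂ ((consts δ : IntermediateField ℂ K) :
      Set K)) K := by
    rw [IntermediateField.adjoin_self]
    exact h1
  have h3 := der_eq_zero δ _ h2 (fun s hs => hs)
  rw [h3] at hσ
  exact hσ0 hσ.symm

variable {r R : ℕ} {n q : Fin r → ℕ} {F K : Type} [Field F] [Field K] [Algebra ℂ F]
  [Algebra ℂ K] [Algebra F K] [IsScalarTower ℂ F K]
  {ℓ : ∀ i, Fin (q i) → Form (n i)} {x : ∀ i, Fin (n i + 1) → K}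

/-- the equations -/
def Eqs (ℓ : ∀ i, Fin (q i) → Form (n i)) (x : ∀ i, Fin (n i + 1) → K) (g : Fin R → F)
    (m : Fin R → ℕ) (e : Fin R → ∀ i, Fin (q i) → ℤ) (y : Fin R → K) : Prop :=
  ∀ j, y j ^ m j = algebraMap F K (g j) * ∏ i, ∏ k, lf (ℓ i k) (x i) ^ e j i k

theorem prod_ratio (hx0 : ∀ i, x i 0 ≠ 0) {e : ∀ i, Fin (q i) → ℤ} (he : ∀ i, ∑ k, e i k = 0) :
    ∏ i, ∏ k, lf (ℓ i k) (x i) ^ e i k = ∏ i, ∏ k, (lf (ℓ i k) (x i) / x i 0) ^ e i k := by
  refine Finset.prod_congr rfl fun i _ => ?_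
  have h1 : ∀ s : Finset (Fin (q i)), ∏ k ∈ s, (lf (ℓ i k) (x i) / x i 0) ^ e i k =
      (∏ k ∈ s, lf (ℓ i k) (x i) ^ e i k) * x i 0 ^ (- ∑ k ∈ s, e i k) := by
    classical
    intro s
    induction s using Finset.induction_on with
    | empty => simp
    | insert a s ha ih =>
      rw [Finset.prod_insert ha, Finset.prod_insert ha, Finset.sum_insert ha, ih, neg_add,
        zpow_add₀ (hx0 i), div_zpow, zpow_neg (x i 0) (e i a)]
      ring
  rw [h1, he]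
  simp

theorem ruled_aux (hx0 : ∀ i, x i 0 ≠ 0) (hbas : IsTranscendenceBasis F (aff x))
    (hl : ∀ (i : Fin r) (φ : Form (n i)), φ ≠ 0 → lf φ (x i) ≠ 0)
    (hℓ : ∀ i k, ℓ i k ≠ 0) {g : Fin R → F} (hg : ∀ j, g j ≠ 0)
    {m : Fin R → ℕ} (hm : ∀ j, 0 < m j) {e : Fin R → ∀ i, Fin (q i) → ℤ}
    (he : ∀ j i, ∑ k, e j i k = 0) {y : Fin R → K} (hy : Eqs ℓ x g m e y)
    (p : ∀ i, (Fin (n i + 1) → ℂ) →ₗ[ℂ] (Fin (n i + 1) → ℂ)) (ε : ∀ i, Fin (q i) → ℤ)
    (hε : ∀ i k, ℓ i k ∘ₗ p i = (ε i k : ℂ) • ℓ i k) (i0 : Fin r) (hp : ∀ i, i ≠ i0 → p i = 0)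
    (hpp : p i0 ∘ₗ p i0 = p i0) {ψ1 ψ2 : Form (n i0)} (h1 : ψ1 ∘ₗ p i0 = 0)
    (h2 : ψ2 ∘ₗ p i0 = ψ2) (h10 : ψ1 ≠ 0) (h20 : ψ2 ≠ 0) {M : ℕ} (hM : 0 < M)
    (hmM : ∀ j, m j ∣ M) {τ : K} (hτ : τ ^ M = lf ψ2 (x i0) / lf ψ1 (x i0))
    (hgen : IntermediateField.adjoin F (Set.range (aff x) ∪ Set.range y ∪ {τ}) = ⊤) :
    Ruled ℂ K := by
  have hchF : CharZero F := charZero_of_injective_algebraMap (algebraMap ℂ F).injective
  have hchK : CharZero K := charZero_of_injective_algebraMap (algebraMap ℂ K).injective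
  have hM0 : (M : K) ≠ 0 := Nat.cast_ne_zero.2 hM.ne'
  obtain ⟨δ, hδ⟩ := exists_der (L := F) (aff x) hbas (fun b => (M : K) *
    ((img (p b.1) (x b.1) b.2.succ * x b.1 0 - x b.1 b.2.succ * img (p b.1) (x b.1) 0) /
      x b.1 0 ^ 2))
  have hd : ∀ i (φ : Form (n i)), lf φ (x i) ≠ 0 → dl δ (lf φ (x i) / x i 0) =
      M * (lf (φ ∘ₗ p i) (x i) / lf φ (x i) - img (p i) (x i) 0 / x i 0) := by
    intro i φ hφ
    rw [dl_lf δ (hx0 i) (x' := img (p i) (x i)) (fun j => hδ ⟨i, j⟩) φ hφ, lf_img]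
  have hlk : ∀ i k, lf (ℓ i k) (x i) ≠ 0 := fun i k => hl i _ (hℓ i k)
  have hdk : ∀ i k, dl δ (lf (ℓ i k) (x i) / x i 0) =
      M * (ε i k - img (p i) (x i) 0 / x i 0) := by
    intro i k
    rw [hd i _ (hlk i k), hε, lf_smul, map_intCast, mul_div_assoc, div_self (hlk i k), mul_one]
  have hgK : ∀ j, algebraMap F K (g j) ≠ 0 := fun j => by simpa using hg j
  have hprod : ∀ j, ∏ i, ∏ k, (lf (ℓ i k) (x i) / x i 0) ^ e j i k ≠ 0 := fun j =>
    Finset.prod_ne_zero_iff.2 fun i _ => Finset.prod_ne_zero_iff.2 fun k _ =>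
      zpow_ne_zero _ (div_ne_zero (hlk i k) (hx0 i))
  have hyj : ∀ j, y j ≠ 0 := by
    intro j h0
    have h3 := hy j
    rw [prod_ratio hx0 (he j), h0, zero_pow (hm j).ne'] at h3
    exact mul_ne_zero (hgK j) (hprod j) h3.symm
  -- the logarithmic derivatives of the `y j`
  choose m' hm' using hmM
  obtain ⟨b, hb⟩ : ∃ b : Fin R → ℤ, ∀ j, b j = m' j * ∑ i, ∑ k, e j i k * ε i k :=
    ⟨_, fun j => rfl⟩
  have hdy : ∀ j, dl δ (y j) = b j := by
    intro j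
    have hmj : (m j : K) ≠ 0 := Nat.cast_ne_zero.2 (hm j).ne'
    have h3 : dl δ (y j ^ m j) = M * ∑ i, ∑ k, (e j i k * ε i k : K) := by
      rw [hy j, prod_ratio hx0 (he j), dl_mul δ (hgK j) (hprod j),
        dl_eq_zero δ (δ.map_algebraMap (g j)), zero_add, dl_prod δ Finset.univ _ fun i _ =>
          Finset.prod_ne_zero_iff.2 fun k _ => zpow_ne_zero _ (div_ne_zero (hlk i k) (hx0 i)),
        Finset.mul_sum]
      refine Finset.sum_congr rfl fun i _ => ?_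
      rw [dl_prod δ Finset.univ _ fun k _ => zpow_ne_zero _ (div_ne_zero (hlk i k) (hx0 i))]
      have h4 : ∀ k, dl δ ((lf (ℓ i k) (x i) / x i 0) ^ e j i k) =
          M * (e j i k * ε i k) - M * (img (p i) (x i) 0 / x i 0) * e j i k := by
        intro k
        rw [dl_zpow δ (div_ne_zero (hlk i k) (hx0 i)), hdk]
        ring
      rw [Finset.sum_congr rfl fun k _ => h4 k, Finset.sum_sub_distrib, ← Finset.mul_sum,
        ← Finset.mul_sum, ← Int.cast_sum, he, Int.cast_zero, mul_zero, sub_zero]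
    rw [dl_pow δ (hyj j), hm' j] at h3
    push_cast at h3
    rw [mul_assoc] at h3
    rw [mul_left_cancel₀ hmj h3, hb]
    push_cast
    rfl
  -- the logarithmic derivative of `τ`
  have hψ1 := hl i0 ψ1 h10
  have hψ2 := hl i0 ψ2 h20
  have hτ0 : τ ≠ 0 := by
    intro h0
    rw [h0, zero_pow hM.ne'] at hτ
    exact div_ne_zero hψ2 hψ1 hτ.symm
  have hquot : ∀ φ ψ : Form (n i0), lf φ (x i0) ≠ 0 → lf ψ (x i0) ≠ 0 →
      dl δ (lf φ (x i0) / lf ψ (x i0)) =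
      M * (lf (φ ∘ₗ p i0) (x i0) / lf φ (x i0) - lf (ψ ∘ₗ p i0) (x i0) / lf ψ (x i0)) := by
    intro φ ψ hφ hψ
    have h3 : lf φ (x i0) / lf ψ (x i0) = (lf φ (x i0) / x i0 0) / (lf ψ (x i0) / x i0 0) := by
      rw [div_div_div_cancel_right₀ (hx0 i0)]
    rw [h3, dl_div δ (div_ne_zero hφ (hx0 i0)) (div_ne_zero hψ (hx0 i0)), hd i0 φ hφ,
      hd i0 ψ hψ]
    ring
  have hdτ : dl δ τ = 1 := by
    have h3 : dl δ (τ ^ M) = M := by
      rw [hτ, hquot ψ2 ψ1 hψ2 hψ1, h2, h1, lf_zero, zero_div, div_self hψ2, sub_zero, mul_one]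
    rw [dl_pow δ hτ0] at h3
    exact mul_left_cancel₀ hM0 (by rw [h3, mul_one])
  have hδτ : δ τ = τ := by
    unfold dl at hdτ
    rwa [div_eq_one_iff_eq hτ0] at hdτ
  -- the constants
  obtain ⟨δ', hδ'⟩ : ∃ δ' : Derivation ℂ K K, ∀ f, δ' f = δ f :=
    ⟨δ.restrictScalars ℂ, fun f => rfl⟩
  refine ruled_of_der δ' hτ0 (by rw [hδ', hδτ]) ?_
  have hC : ∀ f : K, δ f = 0 → f ∈ (consts δ')⟮τ⟯ := by
    intro f hf
    have h3 : f ∈ consts δ' := by
      rw [mem_consts, hδ', hf]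
    exact ((consts δ')⟮τ⟯).algebraMap_mem (⟨f, h3⟩ : consts δ')
  have hτC : τ ∈ (consts δ')⟮τ⟯ := IntermediateField.mem_adjoin_simple_self _ τ
  have hyC : ∀ j, y j ∈ (consts δ')⟮τ⟯ := by
    intro j
    have h3 : δ (y j * τ ^ (- b j)) = 0 := by
      refine eq_zero_of_dl δ (mul_ne_zero (hyj j) (zpow_ne_zero _ hτ0)) ?_
      rw [dl_mul δ (hyj j) (zpow_ne_zero _ hτ0), dl_zpow δ hτ0, hdτ, hdy]
      push_cast
      ring
    have h4 : y j = (y j * τ ^ (- b j)) * τ ^ b j := by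
      rw [mul_assoc, ← zpow_add₀ hτ0, neg_add_cancel, zpow_zero, mul_one]
    rw [h4]
    exact mul_mem (hC _ h3) (zpow_mem hτC _)
  have hxC : ∀ j, x i0 j / lf ψ1 (x i0) ∈ (consts δ')⟮τ⟯ := by
    intro j
    have h3 : ∀ φ : Form (n i0), φ ∘ₗ p i0 = 0 →
        lf φ (x i0) / lf ψ1 (x i0) ∈ (consts δ')⟮τ⟯ := by
      intro φ hφ
      by_cases h0 : lf φ (x i0) = 0
      · rw [h0, zero_div]
        exact zero_mem _
      · refine hC _ (eq_zero_of_dl δ (div_ne_zero h0 hψ1) ?_)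
        rw [hquot φ ψ1 h0 hψ1, hφ, h1, lf_zero, zero_div, zero_div, sub_zero, mul_zero]
    have h4 : ∀ φ : Form (n i0), φ ∘ₗ p i0 = φ →
        lf φ (x i0) / lf ψ2 (x i0) ∈ (consts δ')⟮τ⟯ := by
      intro φ hφ
      by_cases h0 : lf φ (x i0) = 0
      · rw [h0, zero_div]
        exact zero_mem _
      · refine hC _ (eq_zero_of_dl δ (div_ne_zero h0 hψ2) ?_)
        rw [hquot φ ψ2 h0 hψ2, hφ, h2, div_self h0, div_self hψ2, sub_self, mul_zero]
    have h5 : x i0 j / lf ψ1 (x i0) =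
        lf ((LinearMap.proj j : Form (n i0)) - (LinearMap.proj j : Form (n i0)) ∘ₗ p i0) (x i0) /
          lf ψ1 (x i0) + lf ((LinearMap.proj j : Form (n i0)) ∘ₗ p i0) (x i0) / lf ψ2 (x i0) *
          τ ^ M := by
      rw [hτ, div_mul_div_cancel₀ hψ2, ← add_div, ← lf_add, sub_add_cancel, lf_proj]
    rw [h5]
    refine add_mem (h3 _ ?_) (mul_mem (h4 _ ?_) (pow_mem hτC M))
    · rw [LinearMap.sub_comp, LinearMap.comp_assoc, hpp, sub_self]
    · rw [LinearMap.comp_assoc, hpp]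
  have haff : ∀ b, aff x b ∈ (consts δ')⟮τ⟯ := by
    rintro ⟨i, j⟩
    by_cases hi : i = i0
    · subst hi
      have h3 : aff x ⟨i, j⟩ = (x i j.succ / lf ψ1 (x i)) / (x i 0 / lf ψ1 (x i)) := by
        rw [div_div_div_cancel_right₀ hψ1]
        rfl
      rw [h3]
      exact div_mem (hxC _) (hxC _)
    · refine hC _ ?_
      rw [hδ ⟨i, j⟩]
      have h3 : img (p i) (x i) = 0 := by
        funext l
        unfold img
        rw [hp i hi, LinearMap.comp_zero, lf_zero]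
        rfl
      simp only [h3]
      simp
  rw [eq_top_iff]
  intro z _
  have hz : z ∈ IntermediateField.adjoin F (Set.range (aff x) ∪ Set.range y ∪ {τ}) := by
    rw [hgen]
    exact IntermediateField.mem_top
  induction hz using IntermediateField.adjoin_induction with
  | mem z hz =>
    rcases hz with (⟨b, rfl⟩ | ⟨j, rfl⟩) | hz
    · exact haff b
    · exact hyC j
    · rw [Set.mem_singleton_iff.1 hz]
      exact hτC
  | algebraMap f => exact hC _ (δ.map_algebraMap f)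
  | add a b _ _ ha hb => exact add_mem (ha trivial) (hb trivial)
  | inv a _ ha => exact inv_mem (ha trivial)
  | mul a b _ _ ha hb => exact mul_mem (ha trivial) (hb trivial)

end Pool.Agent.TH210.TC
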